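import Pool.Agent.H995R3.Boards.Final

/-!
# An undetermined Gale-Stewart game on `2^ℵ₀` boards (and on every number of boards)

Let `κ ^ ℵ₀ = κ > ℵ₀` and let `Fn κ` be the forcing notion of all finite partial functions from
`κ × ω` to `{0, 1}`, adding the Cohen reals `c ξ`, `ξ < κ`. It forces that the continuum is `κ`.
Let `τ ξ`, `ξ < κ`, list all (nice names of) strategies of TWO for one board and moves in `{0, 1}`.
In the extension, let `S` be the set of all plays in which ONE plays a Cohen real `c ξ` and TWO
answers with the strategy `τ ξ` (a move of TWO different from `1` is read as `0`).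
-/

namespace Pool.Agent.Results.MP_4e0375_lc.CohenBoards

open Cardinal Pool.Agent.Helper669.Forcing Pool.Agent.H458R4.Cohen Pool.Agent.H995R3.Boards

universe u

/-- For every cardinal `κ` with `κ ^ ℵ₀ = κ > ℵ₀` there is a name `S` for a set of functions from
`ω` to `ω` such that every condition of the forcing notion of all finite partial functions from
`κ × ω` to `2` forces that `2 ^ ℵ₀ = κ` and that, for every nonempty set `K` of the ground model
(for instance for `K = κ`), the game `GS_ω(S, K)` is undetermined. -/
theorem result (κ : Cardinal.{0}) (hκ : ℵ₀ < κ) (hpow : κ ^ ℵ₀ = κ) :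
    ∃ S : SetName (Fn κ.out) ℕ ℕ, ∀ p : Fn κ.out,
      p ∈ ContinuumIs (Fn κ.out) κ ∧ p ∈ Undetermined κ.out S ∧
      ∀ K : Type u, Nonempty K → p ∈ Undetermined K S := by
  classical
  have hκ' : #κ.out = κ := mk_out κ
  obtain ⟨τ, hτ, hτ'⟩ := exists_codes (ι := κ.out) (by rw [hκ']; exact hκ)
    (by rw [hκ']; exact hpow)
  have hbe : ∀ x : Bool, (fun l : ℕ => decide (l = 1)) ((fun x : Bool => if x then 1 else 0) x)
      = x := by
    intro x
    cases x <;> rfl
  have hne : Nonempty κ.out := by
    rw [← mk_ne_zero_iff, hκ']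
    exact (aleph0_pos.trans hκ).ne'
  refine ⟨payoff (fun x : Bool => if x then 1 else 0) (fun l : ℕ => decide (l = 1)) τ,
    fun p => ⟨continuumIs hκ hpow p, ?_, fun K hK => ?_⟩⟩
  · exact undetermined _ _ hbe (by rw [hκ']; exact hκ) hτ hτ' p
  · exact undetermined _ _ hbe (by rw [hκ']; exact hκ) hτ hτ' p

end Pool.Agent.Results.MP_4e0375_lc.CohenBoards
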